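import Pool.Agent.Helper69.TPF.St2

/-!
# Project TPF (MP_2b710e_gt): module GAL, the Gaschuetz lemma at a level of the free group
-/

set_option autoImplicit false

namespace Pool.Agent.Helper95.TPF

open Pool.Agent.Helper69.TPF Pool.Agent.Helper6.TS

theorem cGAL (lfi : St_LFI) (gas : St_GAS) : St_GAL := by
  intro g m N _ y hy
  have hfin : Finite (FreeGroup (Fin g) ⧸ lev (FreeGroup (Fin g)) m) := lfi (FreeGroup (Fin g)) m
  have hnorm : (N.map (QuotientGroup.mk' (lev (FreeGroup (Fin g)) m))).Normal :=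
    Subgroup.Normal.map inferInstance _ (QuotientGroup.mk'_surjective _)
  have hz : Gen (fun i : Fin g => (QuotientGroup.mk (FreeGroup.of i) :
      FreeGroup (Fin g) ⧸ lev (FreeGroup (Fin g)) m)) := by
    rw [← genMod_iff_gen]
    unfold GenMod
    rw [FreeGroup.closure_range_of, top_sup_eq]
  have hy' : GenMod (N.map (QuotientGroup.mk' (lev (FreeGroup (Fin g)) m)))
      (fun i => (QuotientGroup.mk' (lev (FreeGroup (Fin g)) m)) (y i)) := by
    refine hy.map (QuotientGroup.mk' _) (QuotientGroup.mk'_surjective _) ?_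
    intro x hx
    have h1 : N ⊔ lev (FreeGroup (Fin g)) m
        ≤ (N.map (QuotientGroup.mk' (lev (FreeGroup (Fin g)) m))).comap
          (QuotientGroup.mk' (lev (FreeGroup (Fin g)) m)) := by
      refine sup_le (Subgroup.le_comap_map _ _) ?_
      intro w hw
      rw [Subgroup.mem_comap]
      have : (QuotientGroup.mk' (lev (FreeGroup (Fin g)) m)) w = 1 :=
        (QuotientGroup.eq_one_iff w).2 hw
      rw [this]
      exact one_mem _
    exact h1 hx
  obtain ⟨c', hc1, hc2⟩ := gas (Fin g) (FreeGroup (Fin g) ⧸ lev (FreeGroup (Fin g)) m)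
    (N.map (QuotientGroup.mk' (lev (FreeGroup (Fin g)) m)))
    (fun i : Fin g => (QuotientGroup.mk (FreeGroup.of i) :
      FreeGroup (Fin g) ⧸ lev (FreeGroup (Fin g)) m))
    (fun i => (QuotientGroup.mk' (lev (FreeGroup (Fin g)) m)) (y i)) hz hy'
  have hl : ∀ i, ∃ c ∈ N, (QuotientGroup.mk' (lev (FreeGroup (Fin g)) m)) c = c' i := fun i => hc1 i
  choose c hcN hcc using hl
  refine ⟨c, hcN, ?_⟩
  rw [genMod_iff_gen]
  have e : (fun i => (QuotientGroup.mk (y i * c i) : FreeGroup (Fin g) ⧸ lev (FreeGroup (Fin g)) m))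
      = fun i => (QuotientGroup.mk' (lev (FreeGroup (Fin g)) m)) (y i) * c' i := by
    funext i
    rw [← hcc i]
    rfl
  rw [e]
  exact hc2

end Pool.Agent.Helper95.TPF
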